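import Pool.Agent.Lib.MP_6c3d62_pr.Tube5
import Pool.Agent.Lib.MP_6c3d62_pr.Growth

/-!
# A correlation length for random stirring on the torus

Random stirring `η(t)` on the torus `(ℤ/N) ^ d`, `d ≥ 2`, nearest neighbour edges of rate one, started
from the identity. There is a correlation length `ξ : [0, ∞) → {1, 2, …, ∞}`, depending on `d` and not
on `N`, with `ξ(0) = 1`, upper semicontinuous where it is finite and at least `exp (t ^ a)` for large
`t`. With `V(t) = (C (1 + t) ξ(t) log (2 ξ(t))) ^ d`: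

* if `ξ(s) = ∞` and `ξ(t) < ∞` then `|s - t| ≥ V(t) ^ (-1/2)`;
* if `ξ(t) < ∞` then, for all `N ≥ 3`, two points at sup-distance `r` are in one cycle with probability
  at most `2 * 2 ^ (-r / (2 ξ(t)))`, the cycle of a point has at least `V(t) s` points with
  probability at most `2 ^ (-s)`, and with probability at least `1 - 1 / N` all the cycles have at
  most `V(t) log N` points;
* if `C (1 + t) ^ 4 ≤ N` and `N ^ 2 ≤ ξ(t)` (all large `N` if `ξ(t) = ∞`) then with probability at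
  least `1 - 2 / N` there is a cycle with at least `N / (C (1 + t) (log N) ^ 2)` points;
* if `C (1 + t) ^ 3 ≤ r`, `r ^ 2 < ξ(t)` and `N > 6 r` then for each `z` with probability at least
  `1 / (4 * 41 ^ (2 d))` there is a cycle which has a point at sup-distance less than `r` of `z` and a
  point at sup-distance at least `2 r` of `z`;
* two points at sup-distance `r < ξ(t)` are in one cycle with probability at least
  `exp (- C (1 + t)) / r ^ (18 d ^ 2)`, for all `N ≥ 3`.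
-/

set_option autoImplicit false

namespace Pool.Agent.Results.MP_6c3d62_pr.CorrelationLength

open Pool.Agent.Stirring

/-- `prob d N t S` is the probability that `η(t)` is in `S`. -/
noncomputable def prob (d N : ℕ) [NeZero N] (t : ℝ)
    (S : Set (Equiv.Perm (Fin d → ZMod N))) : ℝ :=
  expect d N t (S.indicator fun _ => 1)

open Classical in
/-- The number of points of the cycle of `x`. -/
noncomputable def cycleSize {d N : ℕ} [NeZero N] (σ : Equiv.Perm (Fin d → ZMod N))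
    (x : Fin d → ZMod N) : ℕ :=
  (Finset.univ.filter fun y => σ.SameCycle x y).card

/-- The sup-distance of two points of the torus. -/
def supDist {d N : ℕ} (x y : Fin d → ZMod N) : ℕ :=
  Finset.univ.sup fun i => (y i - x i).valMinAbs.natAbs

/-- A correlation length for random stirring: below it, all scales are critical; beyond it, the cycles
decay exponentially. -/
theorem result (d : ℕ) (hd : 2 ≤ d) : ∃ (C a : ℝ) (ξ : ℝ → ℕ∞), 0 < C ∧ 0 < a ∧ ξ 0 = 1 ∧
    (∀ t : ℝ, 0 ≤ t → 1 ≤ ξ t ∧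
      (ξ t ≠ ⊤ → ∃ ε : ℝ, 0 < ε ∧ ∀ s : ℝ, 0 ≤ s → |s - t| < ε → ξ s ≤ ξ t) ∧
      ∀ k : ℕ, ξ t = k → (C ≤ t → Real.exp (t ^ a) ≤ k) ∧ ∀ s : ℝ, 0 ≤ s → ξ s = ⊤ →
        1 ≤ (s - t) ^ 2 * (C * (1 + t) * k * Real.log (2 * k)) ^ d) ∧
    (∀ t : ℝ, 0 ≤ t → ∀ k : ℕ, ξ t = k → ∀ (N : ℕ) [NeZero N], 3 ≤ N →
      (∀ x y : Fin d → ZMod N, x ≠ y →
        prob d N t {σ | σ.SameCycle x y} ≤ 2 * (2 : ℝ) ^ (-((supDist x y : ℝ) / (2 * k)))) ∧
      (∀ (x : Fin d → ZMod N) (s : ℕ), 1 ≤ s →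
        prob d N t {σ | (C * (1 + t) * k * Real.log (2 * k)) ^ d * s ≤ cycleSize σ x} ≤
          (1 / 2) ^ s) ∧
      prob d N t {σ | ∃ x, (C * (1 + t) * k * Real.log (2 * k)) ^ d * Real.log N <
        cycleSize σ x} ≤ 1 / N) ∧
    (∀ t : ℝ, 0 ≤ t → ∀ (N : ℕ) [NeZero N], C * (1 + t) ^ 4 ≤ N → ((N ^ 2 : ℕ) : ℕ∞) ≤ ξ t →
      1 - 2 / N ≤ prob d N t {σ | ∃ x, N / (C * (1 + t) * Real.log N ^ 2) ≤ cycleSize σ x}) ∧
    (∀ t : ℝ, 0 ≤ t → ∀ r : ℕ, C * (1 + t) ^ 3 ≤ r → ((r ^ 2 : ℕ) : ℕ∞) < ξ t →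
      ∀ (N : ℕ) [NeZero N], 6 * r < N → ∀ z : Fin d → ZMod N, 1 / (4 * 41 ^ (2 * d)) ≤
        prob d N t {σ | ∃ x y, σ.SameCycle x y ∧ supDist z x < r ∧ 2 * r ≤ supDist z y}) ∧
    ∀ t : ℝ, 0 ≤ t → ∀ (N : ℕ) [NeZero N], 3 ≤ N → ∀ x y : Fin d → ZMod N, x ≠ y →
      (supDist x y : ℕ∞) < ξ t →
        Real.exp (-(C * (1 + t))) / (supDist x y : ℝ) ^ (18 * d ^ 2) ≤
          prob d N t {σ | σ.SameCycle x y} := by
  obtain ⟨a, t₁, ha, hgrow⟩ := LC.growth d hd
  obtain ⟨n, rfl⟩ : ∃ n, d = n + 1 := ⟨d - 1, by omega⟩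
  obtain ⟨C, ξ, hC, h0, h1, h2, hlong, h3, h4⟩ :=
    Pool.Agent.ThinTori.Dim.correlation_length n (by omega)
  have hCC : C ≤ C + |t₁| := by linarith [abs_nonneg t₁]
  have hCpos : 0 < C + |t₁| := by positivity
  -- the volumes
  have hV : ∀ t : ℝ, 0 ≤ t → ∀ k : ℕ, 1 ≤ k →
      (C * (1 + t) * k * Real.log (2 * k)) ^ (n + 1) ≤
        ((C + |t₁|) * (1 + t) * k * Real.log (2 * k)) ^ (n + 1) := by
    intro t ht k hk
    have hk' : (1 : ℝ) ≤ k := by exact_mod_cast hk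
    have hlog : 0 ≤ Real.log (2 * k) := Real.log_nonneg (by linarith)
    refine pow_le_pow_left₀ (by positivity) ?_ _
    refine mul_le_mul_of_nonneg_right ?_ hlog
    refine mul_le_mul_of_nonneg_right ?_ (by positivity)
    exact mul_le_mul_of_nonneg_right hCC (by positivity)
  have hk1 : ∀ t : ℝ, 0 ≤ t → ∀ k : ℕ, ξ t = k → 1 ≤ k := by
    intro t ht k hk
    have h5 := (h1 t ht).1
    rw [hk] at h5
    exact_mod_cast h5
  -- the two points bound beyond the correlation length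
  have hup : ∀ t : ℝ, 0 ≤ t → ∀ k : ℕ, ξ t = k → ∀ (N : ℕ) [NeZero N], 3 ≤ N →
      ∀ x y : Fin (n + 1) → ZMod N, x ≠ y →
        prob (n + 1) N t {σ | σ.SameCycle x y} ≤
          2 * (2 : ℝ) ^ (-((supDist x y : ℝ) / (2 * k))) := by
    intro t ht k hk N _ hN x y hxy
    unfold supDist prob
    rw [Pool.Agent.ThinTori.Dim.T2_nrm, Pool.Agent.ThinTori.Dim.T2_same]
    exact (h4 t ht k hk N hN).1 _ _
      (fun he => hxy ((Pool.Agent.ThinTori.Dim.T1_v n N).injective he))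
  have hcyc : ∀ (N : ℕ) [NeZero N] (l : List (Pool.Agent.ThinTori.Dim.Ed N N n))
      (x y : Pool.Agent.ThinTori.Dim.Vx N N n),
      (l.map (Pool.Agent.ThinTori.Dim.gT N N n)).prod.SameCycle x y →
      ((Pool.Agent.ThinTori.Dim.T1_v n N).permCongr.symm
        ((l.map (Pool.Agent.ThinTori.Dim.gT N N n)).prod)).SameCycle
        ((Pool.Agent.ThinTori.Dim.T1_v n N).symm x)
        ((Pool.Agent.ThinTori.Dim.T1_v n N).symm y) := by
    intro N _ l x y hxy
    rw [← Pool.Agent.ThinTori.Dim.T1_same, Equiv.apply_symm_apply, Equiv.apply_symm_apply,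
      Equiv.apply_symm_apply]
    exact hxy
  have hcs : ∀ (N : ℕ) [NeZero N] (l : List (Pool.Agent.ThinTori.Dim.Ed N N n))
      (x : Fin (n + 1) → ZMod N), cycleSize ((Pool.Agent.ThinTori.Dim.T1_v n N).permCongr.symm
        ((l.map (Pool.Agent.ThinTori.Dim.gT N N n)).prod)) x =
        Pool.Agent.ThinTori.Dim.cyc N N n (Pool.Agent.ThinTori.Dim.T1_v n N x) l := by
    intro N _ l x
    rw [← Pool.Agent.ThinTori.Dim.T2_cyc]
    rfl
  refine ⟨C + |t₁|, a, ξ, hCpos, ha, h0, fun t ht => ?_,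
    fun t ht k hk N _ hN => ⟨hup t ht k hk N hN, ?_, ?_⟩, fun t ht N _ hN hxi => ?_,
    fun t ht r hr hxi N _ hN z => ?_, fun t ht N _ hN x y hxy hlt => ?_⟩
  · obtain ⟨h5, h6, h7⟩ := h1 t ht
    refine ⟨h5, h6, fun k hk => ⟨fun hCt => ?_, fun s hs hst => ?_⟩⟩
    · refine hgrow t ?_ k (hk1 t ht k hk) fun N _ hN x y hxy => hup t ht k hk N hN x y hxy
      linarith [le_abs_self t₁]
    · exact (h7 k hk s hs hst).trans
        (mul_le_mul_of_nonneg_left (hV t ht k (hk1 t ht k hk)) (sq_nonneg _))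
  · intro x s hs
    unfold prob
    rw [Pool.Agent.ThinTori.Dim.T1_law]
    refine le_trans (Pool.Agent.ThinTori.Pr_mono (fun _ => ht) fun l hl => ?_)
      ((h4 t ht k hk N hN).2.1 (Pool.Agent.ThinTori.Dim.T1_v n N x) s hs)
    rw [← hcs]
    exact (mul_le_mul_of_nonneg_right (hV t ht k (hk1 t ht k hk)) (Nat.cast_nonneg s)).trans hl
  · unfold prob
    rw [Pool.Agent.ThinTori.Dim.T1_law]
    refine le_trans (Pool.Agent.ThinTori.Pr_mono (fun _ => ht) fun l hl => ?_)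
      (h4 t ht k hk N hN).2.2
    obtain ⟨x, hx⟩ := hl
    refine ⟨Pool.Agent.ThinTori.Dim.T1_v n N x, ?_⟩
    rw [← hcs]
    exact lt_of_le_of_lt (mul_le_mul_of_nonneg_right (hV t ht k (hk1 t ht k hk))
      (Real.log_natCast_nonneg N)) hx
  · refine (hlong t ht N (le_trans (mul_le_mul_of_nonneg_right hCC (by positivity)) hN) hxi).trans ?_
    unfold prob
    rw [Pool.Agent.ThinTori.Dim.T1_law]
    refine Pool.Agent.ThinTori.Pr_mono (fun _ => ht) fun l hl => ?_
    obtain ⟨x, hx⟩ := hl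
    refine ⟨(Pool.Agent.ThinTori.Dim.T1_v n N).symm x, ?_⟩
    rw [hcs, Equiv.apply_symm_apply]
    refine le_trans ?_ hx
    rcases eq_or_lt_of_le (Real.log_natCast_nonneg N) with h5 | h5
    · rw [← h5]
      norm_num
    · refine div_le_div_of_nonneg_left (Nat.cast_nonneg N) (by positivity) ?_
      refine mul_le_mul_of_nonneg_right ?_ (by positivity)
      exact mul_le_mul_of_nonneg_right hCC (by linarith)
  · refine (h2 t ht r (le_trans (mul_le_mul_of_nonneg_right hCC (by positivity)) hr) hxi N hN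
      (Pool.Agent.ThinTori.Dim.T1_v n N z)).trans ?_
    unfold prob
    rw [Pool.Agent.ThinTori.Dim.T1_law]
    refine Pool.Agent.ThinTori.Pr_mono (fun _ => ht) fun l hl => ?_
    obtain ⟨x, y, hxy, hx, hy⟩ := hl
    refine ⟨(Pool.Agent.ThinTori.Dim.T1_v n N).symm x,
      (Pool.Agent.ThinTori.Dim.T1_v n N).symm y, hcyc N l x y hxy, ?_, ?_⟩
    · unfold supDist
      rw [Pool.Agent.ThinTori.Dim.T2_nrm, Equiv.apply_symm_apply]
      exact hx
    · unfold supDist
      rw [Pool.Agent.ThinTori.Dim.T2_nrm, Equiv.apply_symm_apply]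
      exact hy
  · unfold supDist at hlt ⊢
    unfold prob
    rw [Pool.Agent.ThinTori.Dim.T2_nrm] at hlt ⊢
    rw [Pool.Agent.ThinTori.Dim.T2_same]
    refine le_trans ?_ (h3 t ht N hN _ _
      (fun he => hxy ((Pool.Agent.ThinTori.Dim.T1_v n N).injective he)) hlt)
    refine div_le_div_of_nonneg_right ?_ (by positivity)
    apply Real.exp_le_exp.2
    have h5 : 0 ≤ |t₁| * (1 + t) := by positivity
    nlinarith

end Pool.Agent.Results.MP_6c3d62_pr.CorrelationLength
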