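import Pool.Agent.Lib.MP_6c3d62_pr.HP.C6
import Pool.Agent.Lib.MP_6c3d62_pr.HP.RecCase
import Pool.Agent.Lib.MP_6c3d62_pr.Mono.H3
import Pool.Agent.Lib.MP_6c3d62_pr.Mono.Crit
import Pool.Agent.Lib.MP_6c3d62_pr.HierCriterionThm

/-! Random stirring on the hierarchical lattice: the phase diagram of the cycle structure.

Recurrent rates: there are no macroscopic cycles at any time, also where the pairs which have rung
percolate; this happens if and only if a single particle is recurrent. Transient rates: long cycles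
appear at a critical time, the density of the vertices in long cycles is nondecreasing and
continuous, and the rescaled ordered cycle lengths converge in law to this density times a
Poisson-Dirichlet(1) sequence (written through the cycle lengths of a uniformly random permutation
of `n` points, `n` large). -/

open Filter Pool.Agent.Stirring Pool.Agent.Stirring.Hier Pool.Agent.Stirring.HP

namespace Pool.Agent.Results.MP_6c3d62_pr.HierPoissonDirichlet

/-- The `(i + 1)`-st longest cycle of `σ` (a fixed point is a cycle), divided by the number of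
points; `0` if there are at most `i` cycles. -/
noncomputable def len {V : Type*} [Fintype V] [DecidableEq V] (σ : Equiv.Perm V) (i : ℕ) : ℝ :=
  ((σ.partition.parts.sort (· ≥ ·)).getD i 0 : ℕ) / (Fintype.card V : ℝ)

/-- The transient case: `∑ 1 / g j < ∞`. There is a critical time `b > 0`:
(a) up to `b` no cycle has positive density, (b) after `b`, for every `i`, the `(i + 1)`-st longest
cycle has positive density with positive probability, (c) the limit `m t` of the expected fraction of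
the vertices in the longest cycles exists, it is nondecreasing, continuous, `0` up to `b`, positive
after `b` and tends to `1`. Moreover the ordered cycle lengths divided by `N ^ K` converge in law to
`m t` times a Poisson-Dirichlet(1) sequence, and `m t` is also the limit fraction of the vertices
whose cycle has length at least `l`, as `l → ∞`. -/
theorem transient (N : ℕ) (hN : 2 ≤ N) (g : ℕ → ℝ) (hg : ∀ j, 0 < g j) (c ρ : ℝ) (hc : 0 < c)
    (hρ : ρ < N) (hreg : ∀ j, c * g j ≤ g (j + 1) ∧ g (j + 1) ≤ ρ * g j)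
    (hs : Summable fun j => 1 / g j) :
    ∃ (m : ℝ → ℝ) (b : ℝ), 0 < b ∧
      (∀ t : ℝ, 0 ≤ t → t ≤ b → ∀ (i : ℕ) (ε : ℝ), 0 < ε →
        Tendsto (fun K : ℕ => hprob N K g t {σ | ε ≤ len σ i}) atTop (nhds 0)) ∧
      (∀ t : ℝ, b < t → ∀ i : ℕ, ∃ ε : ℝ, 0 < ε ∧ ∀ᶠ K : ℕ in atTop,
        ε ≤ hprob N K g t {σ | ε ≤ len σ i}) ∧
      (∀ t : ℝ, 0 ≤ t → ∃ a : ℕ → ℝ, (∀ k, Tendsto (fun K : ℕ => hexpect N K g t fun σ =>
        ∑ i ∈ Finset.range k, len σ i) atTop (nhds (a k))) ∧ Tendsto a atTop (nhds (m t))) ∧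
      MonotoneOn m (Set.Ici 0) ∧ ContinuousOn m (Set.Ici 0) ∧
      (∀ t : ℝ, 0 ≤ t → 0 ≤ m t ∧ m t ≤ 1) ∧ (∀ t : ℝ, 0 ≤ t → t ≤ b → m t = 0) ∧
      (∀ t : ℝ, b < t → 0 < m t) ∧ Tendsto m atTop (nhds 1) ∧
      (∀ t : ℝ, 0 ≤ t → ∀ (r : ℕ) (f : (Fin r → ℝ) → ℝ), Continuous f → ∀ δ : ℝ, 0 < δ →
        ∃ n₀ : ℕ, ∀ n : ℕ, n₀ ≤ n → ∀ᶠ K : ℕ in atTop,
          |hexpect N K g t (fun σ => f fun i => len σ i) -
            (∑ τ : Equiv.Perm (Fin n), f fun i => m t * len τ i) / (n.factorial : ℝ)| ≤ δ) ∧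
      ∀ t : ℝ, 0 ≤ t → ∀ η : ℝ, 0 < η → ∃ l₀ : ℕ, ∀ l : ℕ, l₀ ≤ l → ∀ᶠ K : ℕ in atTop,
        |hexpect N K g t (fun σ => (Nat.card {x : Word N K // l ≤ cycLen σ x} : ℝ)) /
          (N : ℝ) ^ K - m t| ≤ η := by
  have hcg : ∀ j, c * g j ≤ g (j + 1) := fun j => (hreg j).1
  have hρg : ∀ j, g (j + 1) ≤ ρ * g j := fun j => (hreg j).2
  have hgn : ∀ j, 0 ≤ g j := fun j => (hg j).le
  have hN0 : 0 < N := by omega
  have : NeZero N := ⟨by omega⟩
  have hcont : ContinuousOn (fun t => 1 - finf N g t) (Set.Ici 0) :=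
    continuousOn_const.sub (finf_continuousOn hN hg hc hρ hcg hρg hs)
  have hmono : MonotoneOn (fun t => 1 - finf N g t) (Set.Ici 0) := by
    intro s hs' t ht hst
    have h := Pool.Agent.Stirring.Mono.finf_antitone hN hg hρ hρg hs' ht hst
    show 1 - finf N g s ≤ 1 - finf N g t
    linarith
  have hnn : ∀ t : ℝ, 0 ≤ t → 0 ≤ (fun t => 1 - finf N g t) t := by
    intro t ht
    have h2 := finf_le_one hN hg hρ hρg ht
    show 0 ≤ 1 - finf N g t
    linarith
  obtain ⟨b, hb, hb1, hb2⟩ := Pool.Agent.Stirring.Mono.exists_critical hcont hmono hnn (by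
    obtain ⟨t₁, ht₁, h⟩ := finf_small hN hg hc hρ hcg hρg hs
    refine ⟨t₁, ht₁, fun t ht htt => ?_⟩
    show 1 - finf N g t = 0
    rw [h t ht htt, sub_self]) (finf_tendsto hN hg hc hρ hcg hρg hs)
  refine ⟨fun t => 1 - finf N g t, b, hb, ?_, ?_,
    fun t ht => sum_limit hN hg hc hρ hcg hρg hs ht, hmono, hcont, ?_, hb1, hb2,
    finf_tendsto hN hg hc hρ hcg hρg hs,
    fun t ht r f hf δ hδ => len_close hN hg hc hρ hcg hρg hs ht hf hδ,
    fun t ht η hη => long_case hN hg hc hρ hcg hρg hs ht hη⟩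
  · intro t ht htb i ε hε
    have hm : 1 - finf N g t = 0 := hb1 t ht htb
    have h1 := none_case hN hg hc hρ hcg hρg hs ht (by linarith) hε
    refine squeeze_zero (fun K => ?_) (fun K => ?_) h1
    · unfold hprob
      rw [hexpect_eq]
      have h3 := EL_mono (N := N) (K := K) hgn ht K (f := fun _ => 0)
        (h := ind {σ : Equiv.Perm (Word N K) | ε ≤ len σ i}) (fun σ _ => ind_nonneg _ σ)
      rwa [EL_const] at h3
    · unfold hprob
      rw [hexpect_eq, hexpect_eq]
      refine EL_mono (N := N) (K := K) hgn ht K (fun σ _ => ?_)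
      refine Set.indicator_le_indicator_of_subset ?_ (fun _ => zero_le_one) σ
      intro τ hτ
      obtain ⟨s, hs1, hs2, -⟩ := (relLen_ge τ i hε).mp hτ
      obtain ⟨x, hx⟩ := Finset.card_pos.mp (by omega : 0 < s.card)
      refine ⟨x, ?_⟩
      have := hs2 x hx
      rwa [card_word] at this
  · intro t htb i
    have hm : 0 < 1 - finf N g t := hb2 t htb
    have hf1 : finf N g t < 1 := by linarith
    have ht0 : 0 < t := hb.trans htb
    obtain ⟨ε, hε, h1⟩ := many_case' hN hg hc hρ hcg hρg hs ht0 hf1 (i + 1) (by omega)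
    refine ⟨ε, hε, ?_⟩
    filter_upwards [h1] with K hK
    refine hK.trans (le_of_eq (congrArg (hprob N K g t) (Set.ext fun σ => ?_)))
    have := relLen_ge σ i hε
    rw [card_word] at this
    exact this.symm
  · intro t ht
    refine ⟨hnn t ht, ?_⟩
    have h1 := finf_nonneg hN hg hρ hρg ht
    show 1 - finf N g t ≤ 1
    linarith

/-- Random stirring on the hierarchical lattice: a block of level `j` has `N ^ j` vertices and rings
at rate `g j`, where `c * g j ≤ g (j + 1) ≤ ρ * g j` and `ρ < N`. There is a nondecreasing continuous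
`m` on `[0, ∞)` with values in `[0, 1]` such that, at every time `t ≥ 0` and as the number `K` of
levels tends to infinity, the ordered cycle lengths divided by `N ^ K` converge in law to `m t` times
a Poisson-Dirichlet(1) sequence; no cycle has positive density if `m t = 0`, and every `(i + 1)`-st
longest cycle has positive density with positive probability if `m t > 0`; `m t` is the limit of the
expected fraction of the vertices in the `k` longest cycles, as `k → ∞`, and of the fraction of the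
vertices whose cycle has length at least `l`, as `l → ∞`. Dichotomy: `m` vanishes at all times if and
only if a single particle is recurrent, if and only if `∑ 1 / g j = ∞`; otherwise there is a critical
time `b > 0` up to which `m` is zero and after which it is positive, and `m t → 1` as `t → ∞`.
Finally, if `∑ exp (-a * g j) < ∞` for some `a`, as it may be in both cases, the pairs which have
rung by a large time join nearly all the vertices. -/
theorem result (N : ℕ) (hN : 2 ≤ N) (g : ℕ → ℝ) (hg : ∀ j, 0 < g j) (c ρ : ℝ) (hc : 0 < c)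
    (hρ : ρ < N) (hreg : ∀ j, c * g j ≤ g (j + 1) ∧ g (j + 1) ≤ ρ * g j) :
    (∃ m : ℝ → ℝ,
      MonotoneOn m (Set.Ici 0) ∧ ContinuousOn m (Set.Ici 0) ∧
      (∀ t : ℝ, 0 ≤ t → 0 ≤ m t ∧ m t ≤ 1) ∧
      (∀ t : ℝ, 0 ≤ t → ∀ (r : ℕ) (f : (Fin r → ℝ) → ℝ), Continuous f → ∀ δ : ℝ, 0 < δ →
        ∃ n₀ : ℕ, ∀ n : ℕ, n₀ ≤ n → ∀ᶠ K : ℕ in atTop,
          |hexpect N K g t (fun σ => f fun i => len σ i) -
            (∑ τ : Equiv.Perm (Fin n), f fun i => m t * len τ i) / (n.factorial : ℝ)| ≤ δ) ∧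
      (∀ t : ℝ, 0 ≤ t → m t = 0 → ∀ (i : ℕ) (ε : ℝ), 0 < ε →
        Tendsto (fun K : ℕ => hprob N K g t {σ | ε ≤ len σ i}) atTop (nhds 0)) ∧
      (∀ t : ℝ, 0 ≤ t → 0 < m t → ∀ i : ℕ, ∃ ε : ℝ, 0 < ε ∧ ∀ᶠ K : ℕ in atTop,
        ε ≤ hprob N K g t {σ | ε ≤ len σ i}) ∧
      (∀ t : ℝ, 0 ≤ t → ∃ a : ℕ → ℝ, (∀ k, Tendsto (fun K : ℕ => hexpect N K g t fun σ =>
        ∑ i ∈ Finset.range k, len σ i) atTop (nhds (a k))) ∧ Tendsto a atTop (nhds (m t))) ∧
      (∀ t : ℝ, 0 ≤ t → ∀ η : ℝ, 0 < η → ∃ l₀ : ℕ, ∀ l : ℕ, l₀ ≤ l → ∀ᶠ K : ℕ in atTop,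
        |hexpect N K g t (fun σ => (Nat.card {x : Word N K // l ≤ cycLen σ x} : ℝ)) /
          (N : ℝ) ^ K - m t| ≤ η) ∧
      ((∀ t : ℝ, 0 ≤ t → m t = 0) ↔ WalkRecurrent N g) ∧
      (¬ WalkRecurrent N g → ∃ b : ℝ, 0 < b ∧ (∀ t : ℝ, 0 ≤ t → t ≤ b → m t = 0) ∧
        (∀ t : ℝ, b < t → 0 < m t) ∧ Tendsto m atTop (nhds 1))) ∧
    (WalkRecurrent N g ↔ ¬ Summable fun j => 1 / g j) ∧
    (∀ a : ℝ, Summable (fun j => Real.exp (-(a * g j))) → ∀ η : ℝ, 0 < η →
      ∃ t₀ : ℝ, ∀ t : ℝ, t₀ ≤ t → ∀ K : ℕ, 1 - η ≤ rungProb N K g t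
        {E | ∃ x, (1 - η) * (N : ℝ) ^ K ≤ Nat.card {y // Joined E x y}}) := by
  obtain ⟨-, hwalk, -, hperc⟩ :=
    Pool.Agent.Lib.MP_6c3d62_pr.HierCriterionThm.result N hN g hg c ρ hc hρ hreg
  refine ⟨?_, hwalk, hperc⟩
  by_cases hs : Summable fun j => 1 / g j
  · obtain ⟨m, b, hb, h1, h2, h3, h4, h5, h6, h7, h8, h9, h10, h11⟩ :=
      transient N hN g hg c ρ hc hρ hreg hs
    have hnr : ¬ WalkRecurrent N g := fun h => hwalk.mp h hs
    refine ⟨m, h4, h5, h6, h10, fun t ht hm i ε hε => ?_, fun t ht hm i => ?_, h3, h11,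
      ⟨fun h => ?_, fun h => absurd h hnr⟩, fun _ => ⟨b, hb, h7, h8, h9⟩⟩
    · refine h1 t ht ?_ i ε hε
      by_contra hbt
      rw [not_le] at hbt
      exact (h8 t hbt).ne' hm
    · refine h2 t ?_ i
      by_contra hbt
      rw [not_lt] at hbt
      exact hm.ne' (h7 t ht hbt)
    · have h12 := h8 (b + 1) (by linarith)
      rw [h (b + 1) (by linarith)] at h12
      exact absurd h12 (lt_irrefl _)
  · have hρg : ∀ j, g (j + 1) ≤ ρ * g j := fun j => (hreg j).2
    have hr : WalkRecurrent N g := hwalk.mpr hs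
    refine ⟨fun _ => 0, fun s _ t _ _ => le_rfl, continuousOn_const,
      fun t _ => ⟨le_rfl, zero_le_one⟩,
      fun t ht r f hf δ hδ => rec_len_close hN hg hρ hρg hs ht hf hδ,
      fun t ht _ i ε hε => rec_prob hN hg hρ hρg hs ht i hε,
      fun t _ hm => absurd hm (lt_irrefl _),
      fun t ht => ⟨fun _ => 0, fun k => rec_sum_limit hN hg hρ hρg hs ht k, tendsto_const_nhds⟩,
      fun t ht η hη => rec_density hN hg hρ hρg hs ht hη,
      ⟨fun _ => hr, fun _ t _ => rfl⟩, fun h => absurd hr h⟩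

end Pool.Agent.Results.MP_6c3d62_pr.HierPoissonDirichlet
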