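import Pool.Agent.Lib.MP_6c3d62_pr.LC.Final

/-!
# The law of the cycles in windows of side `exp (t ^ c)`, at a fixed time

Random stirring `η_L(t)` on the torus `(ℤ/L)^d` started from the identity, nearest neighbours, in every
dimension `d ≥ 2`. Here `expect d L t f` is the expectation of `f (η_L(t))`, and `share σ B i` the
`(i + 1)`-st largest of the numbers `|C ∩ B| / |B|`, where `C` runs over the cycles of `σ`.

There is an exponent `C`, depending on `d` only, such that at every large time `t`, on every torus, in
every set `B` of vertices of diameter `r` with `(log r) ^ C ≤ t`, the joint law of the shares of the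
cycles is close to that of the rescaled cycle lengths of a uniform permutation of `|B|` points. For
large `|B|` the latter is close to the Poisson-Dirichlet law with parameter 1.

* At a fixed large time `t`, uniformly in `L` (so also as `L → ∞`), the cycles in every window of side
  `exp (t ^ c)`, `c < 1 / C`, have asymptotically (as `t` and `|B|` grow) the Poisson-Dirichlet law.
* If `B` is the set of all vertices (`r = d L`), this is a statement on the macroscopic cycles: it holds
  for every side `L ≥ 3` and all times `t ≥ max (t₀, (log (d L)) ^ C)`.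
-/

set_option autoImplicit false

namespace Pool.Agent.Results.MP_6c3d62_pr.LocalPoissonDirichlet

open Pool.Agent.Stirring

open Classical in
/-- The sizes of the sets `C ∩ B`, for the cycles `C` of `σ` which meet `B` (a fixed point is a cycle
with one point). -/
noncomputable def traceSizes {V : Type*} [Fintype V] [DecidableEq V] (σ : Equiv.Perm V)
    (B : Finset V) : Multiset ℕ :=
  (B.image fun x => B.filter fun y => σ.SameCycle x y).val.map Finset.card

/-- The `(i + 1)`-st largest of the numbers `|C ∩ B| / |B|`, for the cycles `C` of `σ` which meet `B`;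
`0` if at most `i` cycles meet `B`. -/
noncomputable def share {V : Type*} [Fintype V] [DecidableEq V] (σ : Equiv.Perm V)
    (B : Finset V) (i : ℕ) : ℝ :=
  (((traceSizes σ B).sort (· ≥ ·)).getD i 0 : ℕ) / (B.card : ℝ)

/-- For large `t`, uniformly in `L`, the law of the shares of the cycles in a set `B` of diameter at
most `r` is close to that of a uniform permutation of `|B|` points when `(log r) ^ C ≤ t`. -/
theorem result (d : ℕ) (hd : 2 ≤ d) : ∃ C : ℕ, ∀ (m : ℕ) (f : (Fin m → ℝ) → ℝ), Continuous f →
    ∀ δ : ℝ, 0 < δ → ∃ t₀ : ℝ, ∀ (L : ℕ) [NeZero L], 3 ≤ L → ∀ t r : ℝ, t₀ ≤ t → 1 ≤ r →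
      Real.log r ^ C ≤ t →
      ∀ B : Finset (Fin d → ZMod L), B.Nonempty →
        (∀ x ∈ B, ∀ y ∈ B, ∃ k : Fin d → ℤ,
          (∀ i, y i = x i + (k i : ZMod L)) ∧ ∑ i, |(k i : ℝ)| ≤ r) →
      |expect d L t (fun σ => f fun i => share σ B i) -
        (∑ τ : Equiv.Perm (Fin B.card), f fun i => share τ Finset.univ i) /
          (B.card.factorial : ℝ)| ≤ δ := by
  obtain ⟨C, hC⟩ := LC.share_close_local d hd
  refine ⟨C, ?_⟩
  intro m f hf δ hδ
  obtain ⟨t₀, h⟩ := hC m f hf δ hδ
  refine ⟨t₀, ?_⟩
  intro L _ hL t r ht hr hrt B hB hnear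
  refine h L hL t r ht hr hrt B hB ?_
  intro x hx y hy
  obtain ⟨k, hk, hk'⟩ := hnear x hx y hy
  refine ⟨k, ?_, hk'⟩
  funext i
  rw [hk i]
  rfl

end Pool.Agent.Results.MP_6c3d62_pr.LocalPoissonDirichlet
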