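import Pool.Agent.Lib.MP_6c3d62_pr.Tube3

/-!
# On thin tori, stirring has only small cycles, at any time

Random stirring `η(t)` on the torus `(ℤ/L) × (ℤ/W) ^ n`, `n ≥ 1`, with nearest neighbour edges of rate
one, started from the identity. With `C = 14 n² + 34 n + 10`, at every time `t` the cycle of a given
vertex has at most `K s W ^ C` vertices, up to a probability `2 ^ (1 - s)`, for all `s`, `L` and `W`,
where `K` depends on the dimension and `t`. In particular its mean size is at most `K W ^ C`, for all `L`,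
and all the cycles have at most `K W ^ C log L` vertices, up to a probability `1 / L`.
-/

set_option autoImplicit false

namespace Pool.Agent.Results.MP_6c3d62_pr.ThinTori

/-- The unit vectors: `none` stands for `(1, 0)` and `some j` for `(0, e_j)`. -/
def unit (L W n : ℕ) (o : Option (Fin n)) : ZMod L × (Fin n → ZMod W) :=
  match o with
  | none => (1, 0)
  | some j => (0, Pi.single j 1)

/-- The edge `{x, x + unit o}`, coded by `(x, o)`, as the transposition of its two ends. -/
def edgeSwap (L W n : ℕ) (e : (ZMod L × (Fin n → ZMod W)) × Option (Fin n)) :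
    Equiv.Perm (ZMod L × (Fin n → ZMod W)) :=
  Equiv.swap e.1 (e.1 + unit L W n e.2)

/-- `expect L W n t f` is the mean value of `f(η(t))`: the number of rings up to time `t` is Poisson
with mean `(n + 1) L W ^ n t` and, given this number, the successive rings are independent uniform
edges. -/
noncomputable def expect (L W n : ℕ) [NeZero L] [NeZero W] (t : ℝ)
    (f : Equiv.Perm (ZMod L × (Fin n → ZMod W)) → ℝ) : ℝ :=
  ∑' k : ℕ, Real.exp (-(((n : ℝ) + 1) * L * (W : ℝ) ^ n * t)) * t ^ k / (k.factorial : ℝ) *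
    ∑ w : Fin k → (ZMod L × (Fin n → ZMod W)) × Option (Fin n),
      f ((List.ofFn w).map (edgeSwap L W n)).prod

open Classical in
/-- The probability that `η(t)` is in `S`. -/
noncomputable def prob (L W n : ℕ) [NeZero L] [NeZero W] (t : ℝ)
    (S : Set (Equiv.Perm (ZMod L × (Fin n → ZMod W)))) : ℝ :=
  expect L W n t fun σ => if σ ∈ S then 1 else 0

open Classical in
/-- The number of vertices of the cycle of `x`. -/
noncomputable def cycleSize {L W n : ℕ} [NeZero L] [NeZero W]
    (σ : Equiv.Perm (ZMod L × (Fin n → ZMod W))) (x : ZMod L × (Fin n → ZMod W)) : ℕ :=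
  (Finset.univ.filter fun y => σ.SameCycle x y).card

theorem expect_eq (L W n : ℕ) [NeZero L] [NeZero W] (t : ℝ)
    (f : Equiv.Perm (ZMod L × (Fin n → ZMod W)) → ℝ) :
    expect L W n t f = Pool.Agent.ThinTori.Dim.Ex L W n t
      (fun l => f (l.map (Pool.Agent.ThinTori.Dim.gT L W n)).prod) := by
  rw [Pool.Agent.ThinTori.Dim.Ex_eq_tsum]
  rfl

theorem prob_eq (L W n : ℕ) [NeZero L] [NeZero W] (t : ℝ)
    (S : Set (Equiv.Perm (ZMod L × (Fin n → ZMod W)))) :
    prob L W n t S = Pool.Agent.ThinTori.Dim.P L W n t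
      (fun l => (l.map (Pool.Agent.ThinTori.Dim.gT L W n)).prod ∈ S) := by
  unfold prob
  rw [expect_eq]
  rfl

/-- On thin tori of any dimension, stirring has only small cycles, at any time. -/
theorem result (n : ℕ) (hn : 1 ≤ n) (t : ℝ) (ht : 0 ≤ t) : ∃ K : ℕ,
    ∀ (L W : ℕ) [NeZero L] [NeZero W],
      (∀ (x : ZMod L × (Fin n → ZMod W)) (s : ℕ),
        prob L W n t {σ | K * s * W ^ (14 * n ^ 2 + 34 * n + 10) < cycleSize σ x} ≤
          2 * (1 / 2) ^ s) ∧
      (∀ x : ZMod L × (Fin n → ZMod W), expect L W n t (fun σ => (cycleSize σ x : ℝ)) ≤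
        K * (W : ℝ) ^ (14 * n ^ 2 + 34 * n + 10)) ∧
      (2 ≤ L → prob L W n t {σ | ∃ x, (K : ℝ) * (W : ℝ) ^ (14 * n ^ 2 + 34 * n + 10) *
        Real.log L < (cycleSize σ x : ℝ)} ≤ 1 / L) := by
  obtain ⟨K, hK⟩ := Pool.Agent.ThinTori.Dim.main_all n hn t ht
  refine ⟨4 * (K + 1), ?_⟩
  intro L W _ _
  obtain ⟨C, hC⟩ : ∃ C : ℕ, C = 14 * n ^ 2 + 34 * n + 10 := ⟨_, rfl⟩
  rw [← hC]
  have hW : 1 ≤ W := Nat.pos_of_ne_zero (NeZero.ne W)
  have hWC : 1 ≤ W ^ C := Nat.one_le_pow _ _ hW
  have hK1 := (hK L W).1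
  have hK2 := (hK L W).2
  rw [← hC] at hK1 hK2
  have hnn : ∀ _ : Pool.Agent.ThinTori.Dim.Ed L W n, (0 : ℝ) ≤ t := fun _ => ht
  refine ⟨fun x s => ?_, fun x => ?_, fun hL => ?_⟩
  · rw [prob_eq]
    refine le_trans (Pool.Agent.ThinTori.Pr_mono hnn fun l hl => ?_) (hK1 x s)
    refine lt_of_le_of_lt ?_ hl
    exact Nat.mul_le_mul_right _ (Nat.mul_le_mul_right _ (by omega))
  · rw [expect_eq]
    have h1 := Pool.Agent.ThinTori.Dim.mean_le ht x ((K + 1) * W ^ C)
      (Nat.mul_pos (Nat.succ_pos _) hWC) fun s => by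
        refine le_trans (Pool.Agent.ThinTori.Pr_mono hnn fun l hl => ?_) (hK1 x s)
        refine lt_of_le_of_lt ?_ hl
        calc K * s * W ^ C ≤ (K + 1) * s * W ^ C :=
              Nat.mul_le_mul_right _ (Nat.mul_le_mul_right _ (Nat.le_succ _))
          _ = (K + 1) * W ^ C * s := by ring
    refine h1.trans (le_of_eq ?_)
    push_cast
    ring
  · rw [prob_eq]
    refine le_trans (Pool.Agent.ThinTori.Pr_mono hnn fun l hl => ?_) (hK2 hL)
    obtain ⟨x, hx⟩ := hl
    refine ⟨x, lt_of_le_of_lt ?_ hx⟩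
    have hL1 : (1 : ℝ) ≤ L := by exact_mod_cast (by omega : 1 ≤ L)
    have hlog : 0 ≤ Real.log L := Real.log_nonneg hL1
    refine mul_le_mul_of_nonneg_right (mul_le_mul_of_nonneg_right ?_ (by positivity)) hlog
    push_cast
    have : (0 : ℝ) ≤ K := Nat.cast_nonneg _
    linarith

end Pool.Agent.Results.MP_6c3d62_pr.ThinTori
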